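import Pool.Agent.MP_c71a08_an.Defs
import Pool.Agent.MP_c71a08_an.H32.Fixed

namespace Pool.Agent.Results.MP_c71a08_an.FixedRadius

open Pool.Agent.MP_c71a08_an

theorem result (r : ℝ) (h0 : 0 < r) (h1 : r < 1) : ∃ K n0 : ℕ, ∀ n ≥ n0,
    ((n ^ 2 - n + 1).choose (n - 1) : ℝ) * r ^ (n ^ 2 - n + 1 - (n - 1)) * (1 - r ^ 2) ^ (n - 1) ≤
      (n : ℝ) ^ K * M n r ∧
    M n r ≤ (n : ℝ) ^ K * (((n ^ 2 - n + 1).choose (n - 1) : ℝ) *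
      r ^ (n ^ 2 - n + 1 - (n - 1)) * (1 - r ^ 2) ^ (n - 1)) :=
  H32.fixed h0 h1

end Pool.Agent.Results.MP_c71a08_an.FixedRadius
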