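import Pool.Agent.MP_c71a08_an.Defs
import Pool.Agent.MP_c71a08_an.H32.Up
import Pool.Agent.MP_c71a08_an.H32.Low3
import Pool.Agent.MP_c71a08_an.H32.Two2

namespace Pool.Agent.Results.MP_c71a08_an.SecondRange

open Pool.Agent.MP_c71a08_an

theorem big (n : ℕ) (hn : 3 ≤ n) (r : ℝ) (hr0 : 0 ≤ r) (hr1 : r < 1)
    (h2 : 2 ≤ (1 + r) ^ n) (h3 : (1 - r) ^ n + 2 * n * r ≤ 2) :
    M n r = (∑ i ∈ Finset.range n, (-1) ^ (n - 1 - i) * ((n ^ 2 - n + 1).choose i : ℝ) *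
        r ^ (n ^ 2 - n + 1 - i) * (1 + r) ^ i) -
      ((n ^ 2 - n + 1).choose (n - 1) : ℝ) * r ^ (n ^ 2 - n + 1 - n) * ((1 + r) ^ n - 2) / n ∧
    opNorm (H32.Tex n r) ≤ 1 ∧ (∀ μ ∈ spectrum ℂ (H32.Tex n r), μ = r) ∧
    opNorm (H32.Tex n r ^ (n ^ 2 - n + 1)) = M n r := by
  obtain ⟨m, rfl⟩ : ∃ m, n = m + 2 := ⟨n - 2, by omega⟩
  have hr : 0 < r := hr0.lt_of_ne (by rintro rfl; norm_num at h2)
  have H : H32.Hyp m r := ⟨hr, hr1.le, h2, h3⟩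
  obtain ⟨k, hk⟩ : ∃ k, k + 2 = (m + 1) ^ 2 := ⟨(m + 1) ^ 2 - 2, Nat.sub_add_cancel (by nlinarith)⟩
  have hq : (m + 2) ^ 2 - (m + 2) + 1 = m + 1 + (k + 3) := by
    have : (m + 2) ^ 2 = m + 2 + (m + (k + 3)) := by nlinarith
    omega
  have hrow : ∀ (T : Matrix (Fin (m + 2)) (Fin (m + 2)) ℂ) (i : Fin (m + 2)),
      ∑ j, ‖T i j‖ ≤ opNorm T := fun T i =>
    le_ciSup (f := fun i => ∑ j, ‖T i j‖) (Set.finite_range _).bddAbove i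
  have hpos : 0 < (m + 2 : ℝ) * r := by positivity
  have hV : H32.V r (m + 1) (k + 3) = (m + 2) * r * H32.uu m r (m + 1 + (k + 3)) := by
    have := H.al_eq
    rw [H32.V_eq, H32.uu, H32.A, H32.E, H32.e, Nat.add_sub_cancel_left, ← this]
    push_cast; ring
  have hub : ∀ t ∈ {t : ℝ | ∃ T : Matrix (Fin (m + 2)) (Fin (m + 2)) ℂ, opNorm T ≤ 1 ∧
      (∀ μ ∈ spectrum ℂ T, ‖μ‖ ≤ r) ∧ t = opNorm (T ^ ((m + 2) ^ 2 - (m + 2) + 1))},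
      t ≤ H32.uu m r (m + 1 + (k + 3)) := by
    rintro t ⟨T, q1, q2, rfl⟩
    rw [hq]
    refine ciSup_le fun i => le_of_mul_le_mul_left ?_ hpos
    rw [← hV]
    exact H32.upper hr hr1.le m k hk h2 h3 T (fun j => (hrow T j).trans q1) q2 i
  have n1 : opNorm (H32.Tex (m + 2) r) ≤ 1 := ciSup_le fun j => (H.row j).le
  have mem : opNorm (H32.Tex (m + 2) r ^ ((m + 2) ^ 2 - (m + 2) + 1)) ∈
      {t : ℝ | ∃ T : Matrix (Fin (m + 2)) (Fin (m + 2)) ℂ, opNorm T ≤ 1 ∧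
      (∀ μ ∈ spectrum ℂ T, ‖μ‖ ≤ r) ∧ t = opNorm (T ^ ((m + 2) ^ 2 - (m + 2) + 1))} :=
    ⟨_, n1, fun μ hμ => by rw [H.spec hμ, Complex.norm_real, Real.norm_of_nonneg hr0], rfl⟩
  have lo : H32.uu m r (m + 1 + (k + 3)) ≤
      opNorm (H32.Tex (m + 2) r ^ ((m + 2) ^ 2 - (m + 2) + 1)) := by
    rw [hq]; exact (H.val _).trans (hrow _ 0)
  have e1 := le_antisymm (hub _ mem) lo
  have e2 : M (m + 2) r = H32.uu m r (m + 1 + (k + 3)) :=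
    le_antisymm (csSup_le ⟨_, mem⟩ hub) (lo.trans (le_csSup ⟨_, hub⟩ mem))
  refine ⟨?_, n1, fun μ hμ => H.spec hμ, e1.trans e2.symm⟩
  rw [e2, hq, H32.uu, H32.a_closed, H32.e, H32.al, Nat.add_sub_cancel_left,
    show m + 1 + (k + 3) - (m + 2) = k + 2 by omega, show m + 2 - 1 = m + 1 from rfl]
  congr 1
  field_simp
  ring

theorem two (r : ℝ) (h1 : √2 - 1 ≤ r) (h2 : r ≤ 9 - 6 * √2) :
    M 2 r = 3 * (1 + √2) * r ^ 2 * (1 - r) - r ^ 3 := by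
  have s2 : √2 * √2 = 2 := Real.mul_self_sqrt (by norm_num)
  have s0 : 0 ≤ √2 := Real.sqrt_nonneg 2
  have s1 : 1.4142 ≤ √2 := by nlinarith
  have g1 : 0.414 ≤ r := by linarith
  have g2 : r ≤ 0.515 := by linarith
  have ha : 2 * (r - (r - (1 - r) * √2 / 2)) ^ 2 = (1 - r) ^ 2 := by
    linear_combination (1 - r) ^ 2 / 2 * s2
  have ha0 : 0 ≤ r - (1 - r) * √2 / 2 := by nlinarith [mul_le_mul_of_nonneg_right h1 s0]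
  have ha1 : 3 * (r - (1 - r) * √2 / 2) ≤ r := by nlinarith [mul_le_mul_of_nonneg_right h2 s0]
  have hrow : ∀ (T : Matrix (Fin 2) (Fin 2) ℂ) (i : Fin 2), ∑ j, ‖T i j‖ ≤ opNorm T := fun T i =>
    le_ciSup (f := fun i => ∑ j, ‖T i j‖) (Set.finite_range _).bddAbove i
  have hub : ∀ t ∈ {t : ℝ | ∃ T : Matrix (Fin 2) (Fin 2) ℂ, opNorm T ≤ 1 ∧
      (∀ μ ∈ spectrum ℂ T, ‖μ‖ ≤ r) ∧ t = opNorm (T ^ (2 ^ 2 - 2 + 1))},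
      t ≤ 3 * r ^ 2 + 2 * r ^ 3 - 6 * (r - (1 - r) * √2 / 2) * r ^ 2 := by
    rintro t ⟨T, q1, q2, rfl⟩
    exact ciSup_le (H32.two_upper g1 g2 ha1 ha T (fun j => (hrow T j).trans q1) q2)
  obtain ⟨T, q1, q2, q3⟩ := H32.two_lower ha0 g2 ha1 ha
  have mem : opNorm (T ^ (2 ^ 2 - 2 + 1)) ∈ {t : ℝ | ∃ T : Matrix (Fin 2) (Fin 2) ℂ,
      opNorm T ≤ 1 ∧ (∀ μ ∈ spectrum ℂ T, ‖μ‖ ≤ r) ∧ t = opNorm (T ^ (2 ^ 2 - 2 + 1))} :=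
    ⟨T, ciSup_le q1, q2, rfl⟩
  have e : M 2 r = 3 * r ^ 2 + 2 * r ^ 3 - 6 * (r - (1 - r) * √2 / 2) * r ^ 2 :=
    le_antisymm (csSup_le ⟨_, mem⟩ hub) ((q3.trans (hrow _ 0)).trans (le_csSup ⟨_, hub⟩ mem))
  rw [e]; ring

theorem result :
    (∀ (n : ℕ), 3 ≤ n → ∀ r : ℝ, 0 ≤ r → r < 1 → 2 ≤ (1 + r) ^ n → (1 - r) ^ n + 2 * n * r ≤ 2 →
      M n r = (∑ i ∈ Finset.range n, (-1) ^ (n - 1 - i) * ((n ^ 2 - n + 1).choose i : ℝ) *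
          r ^ (n ^ 2 - n + 1 - i) * (1 + r) ^ i) -
        ((n ^ 2 - n + 1).choose (n - 1) : ℝ) * r ^ (n ^ 2 - n + 1 - n) * ((1 + r) ^ n - 2) / n ∧
      opNorm (H32.Tex n r) ≤ 1 ∧ (∀ μ ∈ spectrum ℂ (H32.Tex n r), μ = r) ∧
      opNorm (H32.Tex n r ^ (n ^ 2 - n + 1)) = M n r) ∧
    ∀ r : ℝ, √2 - 1 ≤ r → r ≤ 9 - 6 * √2 →
      M 2 r = 3 * (1 + √2) * r ^ 2 * (1 - r) - r ^ 3 :=
  ⟨big, two⟩

end Pool.Agent.Results.MP_c71a08_an.SecondRange
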