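import Pool.Agent.MP_c71a08_an.Defs
import Pool.Agent.MP_c71a08_an.H15.Upper
import Pool.Agent.MP_c71a08_an.H15.Example

namespace Pool.Agent.Results.MP_c71a08_an.SharpOrder

open Pool.Agent.MP_c71a08_an

theorem result (n : ℕ) (hn : 2 ≤ n) : ∃ c C : ℝ, 0 < c ∧ ∀ r : ℝ, 0 ≤ r → r < 1 →
    c * (1 - r) ^ (n + 1) ≤ 1 - M n r ∧ 1 - M n r ≤ C * (1 - r) ^ (n + 1) := by
  obtain ⟨m, rfl⟩ : ∃ m, n = m + 1 := ⟨n - 1, by omega⟩
  have hrow : ∀ (T : Matrix (Fin (m + 1)) (Fin (m + 1)) ℂ) (i : Fin (m + 1)),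
      ∑ j, ‖T i j‖ ≤ opNorm T := fun T i =>
    le_ciSup (f := fun i => ∑ j, ‖T i j‖) (Set.finite_range _).bddAbove i
  obtain ⟨c, hc, hup⟩ := H15.upper (V := Fin (m + 1)) (by simpa using hn)
  obtain ⟨A, η0, hA, hη0, hlow⟩ := H15.lower (m := m) (by omega) ((m + 1) ^ 2 - (m + 1) + 1)
  simp only [H15.qq, Fintype.card_fin] at hup
  refine ⟨c, A + (1 / η0) ^ (m + 1 + 1), hc, fun r h0 h1 => ?_⟩
  have hub : ∀ t ∈ {t : ℝ | ∃ T : Matrix (Fin (m + 1)) (Fin (m + 1)) ℂ, opNorm T ≤ 1 ∧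
      (∀ μ ∈ spectrum ℂ T, ‖μ‖ ≤ r) ∧ t = opNorm (T ^ ((m + 1) ^ 2 - (m + 1) + 1))},
      t ≤ 1 - c * (1 - r) ^ (m + 1 + 1) := by
    rintro t ⟨T, q1, q2, rfl⟩
    exact ciSup_le (hup T r (fun j => (hrow T j).trans q1) h0 h1 q2)
  have hzero : ∀ μ ∈ spectrum ℂ (0 : Matrix (Fin (m + 1)) (Fin (m + 1)) ℂ), ‖μ‖ ≤ r := by
    intro μ hμ
    rw [spectrum.zero_eq, Set.mem_singleton_iff] at hμ
    simpa [hμ] using h0
  have hM0 : 0 ≤ M (m + 1) r := Real.sSup_nonneg (by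
    rintro t ⟨T, -, -, rfl⟩
    exact le_trans (Finset.sum_nonneg fun _ _ => norm_nonneg _) (hrow _ 0))
  have hη : 0 < 1 - r := by linarith
  constructor
  · have : M (m + 1) r ≤ 1 - c * (1 - r) ^ (m + 1 + 1) :=
      csSup_le ⟨_, 0, by simp [opNorm], hzero, rfl⟩ hub
    linarith
  · rcases le_total (1 - r) η0 with h | h
    · obtain ⟨T, q1, q2, q3⟩ := hlow r h1 h
      have h2 : opNorm (T ^ ((m + 1) ^ 2 - (m + 1) + 1)) ≤ M (m + 1) r :=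
        le_csSup ⟨_, hub⟩ ⟨T, ciSup_le q1, q2, rfl⟩
      have h3 := hrow (T ^ ((m + 1) ^ 2 - (m + 1) + 1)) 0
      have h4 : 0 ≤ (1 / η0) ^ (m + 1 + 1) * (1 - r) ^ (m + 1 + 1) := by positivity
      rw [add_mul]
      linarith
    · have h2 : 1 ≤ (1 / η0) ^ (m + 1 + 1) * (1 - r) ^ (m + 1 + 1) := by
        rw [← mul_pow]
        apply one_le_pow₀
        rw [one_div, inv_mul_eq_div, one_le_div hη0]
        exact h
      have h3 : 0 ≤ A * (1 - r) ^ (m + 1 + 1) := by positivity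
      rw [add_mul]
      linarith

end Pool.Agent.Results.MP_c71a08_an.SharpOrder
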