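import Pool.Agent.MP_c71a08_an.Defs
import Pool.Agent.MP_c71a08_an.H38.Defs
import Pool.Agent.MP_c71a08_an.H38.Lower
import Pool.Agent.MP_c71a08_an.H32.Unif

namespace Pool.Agent.Results.MP_c71a08_an.UniformRate

open Pool.Agent.MP_c71a08_an

theorem result (ε : ℝ) (hε : 0 < ε) : ∃ n0 : ℕ, ∀ n ≥ n0, ∀ r : ℝ, 0 < r → r < 1 →
    Real.exp (-(ε * n)) * H n r ≤ M n r ∧ M n r ≤ Real.exp (ε * n) * H n r := by
  obtain ⟨n1, h1⟩ := H32.unif_upper hε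
  obtain ⟨η, hη, n2, h2⟩ := H32.unif_small hε
  obtain ⟨n3, h3⟩ := H38.lower_eps hε hη
  refine ⟨n1 + n2 + n3, fun n hn r r0 r1 => ⟨?_, h1 n (by omega) r r0 r1⟩⟩
  rcases le_total r η with h | h
  · exact h2 n (by omega) r r0 h
  · exact h3 n (by omega) r h r1

end Pool.Agent.Results.MP_c71a08_an.UniformRate
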